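import Pool.Agent.D0H63.MR.Odd
import Pool.Agent.Results.MP_807c24_nt.AlmostAllCoefficients

/-!
# MP_807c24_nt: relations between the coefficients of the KZ associator at the best approximation vectors of linear forms

A pattern in `k` variables is a nonempty list of letters `b + u_1 s_1 + ... + u_k s_k`; at a tuple `s` of natural numbers
it gives an index, and so a word. A family `(y, Z)` is an element `y` of a commutative `ℚ`-algebra and a function `Z` from the
indices to the algebra with the stuffle product and with Euler's formula `Z(2 m) = - B_{2m} y ^ (2 m) / (2 (2 m)!)`, for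
example `μ` and the coefficients of an associator `(μ, Φ)` (by the theorem of Furusho), in particular the universal one. The
tuple `s` is bad for `(y, Z)` (and `D`, `H`) if a polynomial relation of degree at most `D` with integer coefficients at most
`H` between `2 π i` and the multiple zeta values of the patterns at `s` fails for `(y, Z)`; for the universal associator this
means that the polynomial is in the kernel of `φ_KZ` and not in `I`.

Let `α` be a real matrix with `k` rows and `m` columns, `β ∈ ℝ ^ m` and `τ > 0`. We call `α` good if for ALL patterns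
`w_1, ..., w_r` in `k` variables, all `D`, `C`, `c`, `κ`, all large tuples `s` of natural numbers with `s_i ≤ κ s_j` for all
`i, j` and `‖(s α)_j - β_j‖ ≤ c |s| ^ (-τ)` for all `j`, where `|s| = s_1 + ... + s_k` and `‖x‖` is the distance to the nearest
integer, are not bad, for the degree `D` and the height `C ^ |s|`. For `β = 0` and `τ = k / m` these tuples include the best
approximation vectors of the system of the linear forms `s α` in the cone, by the theorem of Minkowski.

Theorem. (1) All matrices `α` but a set of Hausdorff dimension at most `(k - 1) m + (m + k - 1) / (1 + τ)`, which is less than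
`k m` if `k - 1 < τ m` (then almost all `α`), are good, for all families at once for which all the relations between `2 π i` and
the multiple zeta values of the (finitely many) constant fronts of the patterns hold; if the fronts are even
(`2a, ..., 2a`, or empty), unconditionally for all families.

(2) Conversely, let `(y, Z)` be a family in a domain, with `Z(s) ≠ 0` for all large odd `s` (for example the universal
associator). Then the following are equivalent: (a) all polynomial relations between `2 π i` and the multiple zeta values hold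
for `(y, Z)` (for the universal associator: `φ_KZ` is injective); (b) for all `k`, `m`, `β`, `τ` all matrices but a set of
dimension at most `(k - 1) m + (m + k - 1) / (1 + τ)` are good for `(y, Z)`; (c) for all patterns in one variable with exactly
one letter which is not constant, `s + b`, and all `C` there is ONE irrational number `ξ` such that all large `s` with
`‖s ξ‖ ≤ 6 / s` are not bad for `(y, Z)`, degree one and height `C ^ s`.

The best approximation vectors are a very sparse sequence, about `log N` vectors of norm at most `N`: the statement does not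
follow from the count of the bad tuples, at most `K N ^ (k - 1)` in `[N, κ N] ^ k`, in the starting file
`AlmostAllCoefficients`. The proof combines this count with a metric theorem about systems of linear forms, the starting
library `Pool.Agent.N671.DA` (helper671).
-/

set_option autoImplicit false

open Set Filter MeasureTheory
open scoped ENNReal

namespace Pool.Agent.Results.MP_807c24_nt.BestApproximations

open AlmostAllCoefficients (mzv mu Letter index AdmissiblePattern fronts EvenFront OneLarge IsFamily Transfers Bad BadFor Few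
  part1 part2 c_to_a OneLargeArgument)

/-- For all admissible patterns `w` in `k` variables, all `D`, `C`, `c` and `κ` and all large tuples `s` with `s_i ≤ κ s_j` for
all `i, j` and `‖(s α)_j - β_j‖ ≤ c |s| ^ (-τ)` for all `j`, `|s| = s_1 + ... + s_k`, the property `E r w D (C ^ |s|) s` fails. -/
def Good {k m : ℕ} (β : Fin m → ℝ) (τ : ℝ) (E : ∀ r : ℕ, (Fin r → List (Letter k)) → ℕ → ℝ → (Fin k → ℕ) → Prop)
    (α : Fin k × Fin m → ℝ) : Prop :=
  ∀ (r : ℕ) (w : Fin r → List (Letter k)), (∀ i, AdmissiblePattern (w i)) → ∀ (D : ℕ) (C c : ℝ) (κ : ℕ),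
    ∃ Q : ℕ, ∀ s : Fin k → ℕ, (∃ j, Q ≤ s j) → (∀ i j, s i ≤ κ * s j) →
      (∀ j : Fin m, ∃ p : ℤ, |∑ i, (s i : ℝ) * α (i, j) - β j - p| ≤ c * (∑ i, (s i : ℝ)) ^ (-τ)) →
      ¬ E r w D (C ^ (∑ i, s i)) s

/-- for all `β` and `τ > 0` all matrices with `k` rows and `m` columns but a set of Hausdorff dimension at most
`(k - 1) m + (m + k - 1) / (1 + τ)`, and almost all matrices if `k - 1 < τ m`, are good -/
def Metric (k m : ℕ) (E : ∀ r : ℕ, (Fin r → List (Letter k)) → ℕ → ℝ → (Fin k → ℕ) → Prop) : Prop :=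
  ∀ (β : Fin m → ℝ) (τ : ℝ), 0 < τ →
    dimH {α : Fin k × Fin m → ℝ | ¬ Good β τ E α} ≤
      ENNReal.ofReal (((k : ℝ) - 1) * m + (m + ((k : ℝ) - 1)) / (1 + τ)) ∧
    ((k : ℝ) - 1 < τ * m → ∀ᵐ α : Fin k × Fin m → ℝ, Good β τ E α)

/-- statement (b) -/
def AllMatrices {A : Type} [CommRing A] (y : A) (Z : List ℕ → A) : Prop :=
  ∀ k m : ℕ, 1 ≤ k → Metric k m fun _ w D H s => Bad w D H y Z s

/-- statement (c): for all patterns in one variable with exactly one letter which is not constant, `s + b`, and all `C` there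
is an irrational number `ξ` such that all large `s` with `‖s ξ‖ ≤ 6 / s` are not bad for `(y, Z)`, degree one and height
`C ^ s` -/
def OneNumber {A : Type} [CommRing A] (y : A) (Z : List ℕ → A) : Prop :=
  ∀ (r : ℕ) (w : Fin r → List (Letter 1)), (∀ i, AdmissiblePattern (w i) ∧ OneLarge (w i)) → ∀ C : ℝ,
    ∃ ξ : ℝ, Irrational ξ ∧ ∀ᶠ s : ℕ in atTop, (∃ p : ℤ, |(s : ℝ) * ξ - p| ≤ 6 / s) →
      ¬ Bad w 1 (C ^ s) y Z (fun _ => s)

lemma norm_le_sum {k : ℕ} (s : Fin k → ℕ) : ‖fun j => (s j : ℤ)‖ ≤ ∑ i, (s i : ℝ) := by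
  have h0 : (0 : ℝ) ≤ ∑ i, (s i : ℝ) := Finset.sum_nonneg fun i _ => Nat.cast_nonneg _
  rw [pi_norm_le_iff_of_nonneg h0]
  intro j
  have h1 : ‖(s j : ℤ)‖ = (s j : ℝ) := by simp
  rw [h1]
  exact Finset.single_le_sum (f := fun i => (s i : ℝ)) (fun i _ => Nat.cast_nonneg _) (Finset.mem_univ j)

lemma metric_of_few {k m : ℕ} (hk : 1 ≤ k)
    {E : ∀ r : ℕ, (Fin r → List (Letter k)) → ℕ → ℝ → (Fin k → ℕ) → Prop}
    (hE : ∀ r w D H H' s, H ≤ H' → E r w D H s → E r w D H' s)
    (h : ∀ (r : ℕ) (w : Fin r → List (Letter k)), (∀ i, AdmissiblePattern (w i)) → ∀ D κ : ℕ, Few κ (E r w D)) :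
    Metric k m E := by
  intro β τ hτ
  obtain ⟨X, hX, h1⟩ := Pool.Agent.D0H63.MR.forms_of_few (k := k) (m := m) hk
    (ι := (Σ r : ℕ, {w : Fin r → List (Letter k) // ∀ i, AdmissiblePattern (w i)}) × ℕ)
    (E := fun i => E i.1.1 i.1.2.1 i.2) (fun i H H' s => hE _ _ _ H H' s)
    (fun i κ => h _ _ i.1.2.2 _ κ) β hτ
  have hsub : {α : Fin k × Fin m → ℝ | ¬ Good β τ E α} ⊆ X := by
    intro α hα
    by_contra hαX
    refine hα fun r w hw D C c κ => ?_
    obtain ⟨Q, hQ⟩ := h1 α hαX (⟨r, w, hw⟩, D) C (max c 0) κ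
    refine ⟨Q + 1, fun s hs hcone hnear => ?_⟩
    obtain ⟨j₀, hj₀⟩ := hs
    refine hQ s ⟨j₀, by omega⟩ hcone fun j => ?_
    obtain ⟨p, hp⟩ := hnear j
    refine ⟨p, ?_⟩
    have h2 : (1 : ℝ) ≤ ‖fun j => (s j : ℤ)‖ := by
      have h3 := norm_le_pi_norm (fun j => (s j : ℤ)) j₀
      have h4 : ‖(s j₀ : ℤ)‖ = (s j₀ : ℝ) := by simp
      rw [h4] at h3
      refine le_trans ?_ h3
      exact_mod_cast (by omega : 1 ≤ s j₀)
    have h3 : (∑ i, (s i : ℝ)) ^ (-τ) ≤ ‖fun j => (s j : ℤ)‖ ^ (-τ) :=
      Real.rpow_le_rpow_of_nonpos (by linarith) (norm_le_sum s) (by linarith)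
    have h4 : (0 : ℝ) ≤ (∑ i, (s i : ℝ)) ^ (-τ) :=
      Real.rpow_nonneg (Finset.sum_nonneg fun i _ => Nat.cast_nonneg _) _
    have h5 : |∑ i, (((s i : ℕ) : ℤ) : ℝ) * α (i, j) - β j - p| ≤ c * (∑ i, (s i : ℝ)) ^ (-τ) := by
      simpa using hp
    refine h5.trans ?_
    calc c * (∑ i, (s i : ℝ)) ^ (-τ) ≤ max c 0 * (∑ i, (s i : ℝ)) ^ (-τ) :=
          mul_le_mul_of_nonneg_right (le_max_left _ _) h4
      _ ≤ max c 0 * ‖fun j => (s j : ℤ)‖ ^ (-τ) := mul_le_mul_of_nonneg_left h3 (le_max_right _ _)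
  have hdim := (dimH_mono hsub).trans hX
  refine ⟨hdim, fun hlt => ?_⟩
  have hk1 : (1 : ℝ) ≤ k := by exact_mod_cast hk
  have hm0 : (0 : ℝ) ≤ m := Nat.cast_nonneg m
  refine ae_iff.2 (Pool.Agent.D0H63.MR.null_of_dim hdim ?_ ?_)
  · have : 0 ≤ ((k : ℝ) - 1) * m := mul_nonneg (by linarith) hm0
    have : 0 ≤ ((m : ℝ) + ((k : ℝ) - 1)) / (1 + τ) := div_nonneg (by linarith) (by linarith)
    linarith
  · rw [Fintype.card_prod, Fintype.card_fin, Fintype.card_fin, Nat.cast_mul]
    have h2 : ((m : ℝ) + ((k : ℝ) - 1)) / (1 + τ) < m := by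
      rw [div_lt_iff₀ (by linarith)]
      linarith
    linarith

lemma bad_mono {k r : ℕ} (w : Fin r → List (Letter k)) (D : ℕ) {A : Type} [CommRing A] (y : A) (Z : List ℕ → A) (H H' : ℝ)
    (s : Fin k → ℕ) (h : H ≤ H') (hB : Bad w D H y Z s) : Bad w D H' y Z s := by
  obtain ⟨P, h1, h2, h3, h4⟩ := hB
  exact ⟨P, h1, fun m => (h2 m).trans h, h3, h4⟩

lemma badFor_mono {k r : ℕ} (w : Fin r → List (Letter k)) (D : ℕ)
    (F : ∀ (A : Type) [CommRing A] [Algebra ℚ A], A → (List ℕ → A) → Prop) (H H' : ℝ) (s : Fin k → ℕ) (h : H ≤ H')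
    (hB : BadFor w D F H s) : BadFor w D F H' s := by
  obtain ⟨A, i1, i2, y, Z, h1, h2, h3⟩ := hB
  exact ⟨A, i1, i2, y, Z, h1, h2, bad_mono w D y Z H H' s h h3⟩

/-- a linear relation which fails for `Z` -/
lemma bad_of_linear {k r : ℕ} (w : Fin r → List (Letter k)) {A : Type} [CommRing A] (y : A) (Z : List ℕ → A)
    (s : Fin k → ℕ) (B : ℕ) (H : ℝ) (hB1 : (B : ℝ) ≤ H) (a : Fin r → ℤ) (ha : ∀ i, |a i| ≤ B)
    (hR : ∑ i, (a i : ℝ) * mzv (index s (w i)) = 0) (hA : ∑ i, (a i : A) * Z (index s (w i)) ≠ 0) :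
    Bad w 1 H y Z s := by
  classical
  refine ⟨∑ i, MvPolynomial.C (a i) * MvPolynomial.X (Sum.inr i), ?_, fun m => ?_, ?_, ?_⟩
  · refine MvPolynomial.totalDegree_finsetSum_le fun i _ => ?_
    refine (MvPolynomial.totalDegree_mul _ _).trans ?_
    rw [MvPolynomial.totalDegree_C, zero_add]
    exact (MvPolynomial.totalDegree_X _).le
  · rw [MvPolynomial.coeff_sum]
    simp only [MvPolynomial.coeff_C_mul, MvPolynomial.coeff_X]
    refine le_trans ?_ hB1
    by_cases hm : ∃ i : Fin r, Finsupp.single (Sum.inr i : Fin 1 ⊕ Fin r) 1 = m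
    · obtain ⟨i₀, rfl⟩ := hm
      have h4 : ∑ x, a x * (if Finsupp.single (Sum.inr x : Fin 1 ⊕ Fin r) 1 =
          Finsupp.single (Sum.inr i₀) 1 then (1 : ℤ) else 0) = a i₀ := by
        rw [Finset.sum_eq_single i₀]
        · rw [if_pos rfl, mul_one]
        · intro x _ hx
          rw [if_neg, mul_zero]
          intro h5
          exact hx (Sum.inr_injective ((Finsupp.single_left_inj one_ne_zero).1 h5))
        · intro h5
          exact absurd (Finset.mem_univ _) h5
      rw [h4]
      exact_mod_cast ha i₀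
    · have h4 : ∑ x, a x * (if Finsupp.single (Sum.inr x : Fin 1 ⊕ Fin r) 1 = m then (1 : ℤ) else 0) = 0 := by
        refine Finset.sum_eq_zero fun x _ => ?_
        rw [if_neg fun h5 => hm ⟨x, h5⟩, mul_zero]
      rw [h4, Int.cast_zero, abs_zero]
      exact Nat.cast_nonneg _
  · rw [map_sum]
    have h6 : ∑ i, ((((a i : ℝ) * mzv (index s (w i)) : ℝ)) : ℂ) = 0 := by
      rw [← Complex.ofReal_sum, hR, Complex.ofReal_zero]
    refine Eq.trans (Finset.sum_congr rfl fun i _ => ?_) h6
    rw [map_mul, MvPolynomial.aeval_C, MvPolynomial.aeval_X, Sum.elim_inr, Complex.ofReal_mul]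
    rfl
  · rw [map_sum]
    intro h5
    refine hA (Eq.trans (Finset.sum_congr rfl fun i _ => ?_) h5)
    rw [map_mul, MvPolynomial.aeval_C, MvPolynomial.aeval_X, Sum.elim_inr]
    rfl

lemma all_of_transfers {A : Type} [CommRing A] [Algebra ℚ A] (y : A) (Z : List ℕ → A) (hZ : IsFamily y Z)
    (h : Transfers Set.univ y Z) : AllMatrices y Z := fun _ _ hk =>
  metric_of_few hk (fun _ w D H H' s => bad_mono w D y Z H H' s)
    (fun r w hw D κ => AlmostAllCoefficients.a_to_b y Z hZ h _ r w hw D κ)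

lemma one_of_all {A : Type} [CommRing A] (y : A) (Z : List ℕ → A) (h : AllMatrices y Z) : OneNumber y Z := by
  intro r w hw C
  have h1 := (h 1 1 le_rfl (fun _ => 0) 1 one_pos).2 (by norm_num)
  obtain ⟨α, hirr, hα⟩ := (Pool.Agent.D0H63.MR.ae_irrational'.and h1).exists
  refine ⟨α (0, 0), hirr, ?_⟩
  obtain ⟨Q, hQ⟩ := hα r w (fun i => (hw i).1) 1 C 6 1
  filter_upwards [eventually_ge_atTop (Q + 1)] with s hs
  rintro ⟨p, hp⟩ hb
  have hs0 : (0 : ℝ) < s := by exact_mod_cast (by omega : 0 < s)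
  refine hQ (fun _ => s) ⟨0, by omega⟩ (fun _ _ => by omega) (fun j => ⟨p, ?_⟩) ?_
  · rw [Subsingleton.elim j 0, Fin.sum_univ_one, Fin.sum_univ_one, sub_zero, Real.rpow_neg hs0.le, Real.rpow_one]
    rwa [div_eq_mul_inv] at hp
  · rw [Fin.sum_univ_one]
    exact hb

lemma large_of_one {A : Type} [CommRing A] (y : A) (Z : List ℕ → A) (h : OneNumber y Z) : OneLargeArgument Z := by
  intro r w hw B s₁
  obtain ⟨ξ, hξ, h1⟩ := h r w hw (B + 1 : ℝ)
  obtain ⟨N₀, hN₀⟩ := eventually_atTop.1 h1
  obtain ⟨s, h2, h3, h4, h5⟩ := Pool.Agent.D0H63.MR.exists_odd_den hξ (N₀ + s₁)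
  have hB : (B : ℝ) ≤ (B + 1 : ℝ) ^ s := by
    have h3 : (B + 1 : ℝ) ^ 1 ≤ (B + 1 : ℝ) ^ s :=
      pow_le_pow_right₀ (by have := Nat.cast_nonneg (α := ℝ) B; linarith) h4
    rw [pow_one] at h3
    linarith
  refine ⟨s, by omega, h3, fun a ha hR => ?_⟩
  by_contra hA
  exact hN₀ s (by omega) h5 (bad_of_linear w y Z (fun _ => s) B _ hB a ha hR hA)

/-- **Theorem.** (1) Let `k ≥ 1`, `β ∈ ℝ ^ m` and `τ > 0`. All real matrices `α` with `k` rows and `m` columns but a set of
Hausdorff dimension at most `(k - 1) m + (m + k - 1) / (1 + τ)` (and almost all matrices if `k - 1 < τ m`) satisfy: for all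
admissible patterns `w_1, ..., w_r` in `k` variables, all `D`, `C`, `c`, `κ` no large tuple `s` with `s_i ≤ κ s_j` and
`‖(s α)_j - β_j‖ ≤ c |s| ^ (-τ)` is bad, for the degree `D` and the height `C ^ |s|`, for a family `(y, Z)` if the fronts of the
patterns are even, and for arbitrary patterns for a family for which the relations between `2 π i` and the multiple zeta values
of the fronts hold. (2) For a family `(y, Z)` in a domain, with `Z(s) ≠ 0` for all large odd `s`, the following are equivalent: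
all polynomial relations between `2 π i` and the multiple zeta values hold for `(y, Z)`; `AllMatrices y Z`; `OneNumber y Z`. -/
theorem result :
    (∀ k m : ℕ, 1 ≤ k →
      Metric k m (fun _ w D H s => (∀ i, EvenFront (w i)) ∧ BadFor w D (fun _ _ _ _ _ => True) H s) ∧
      Metric k m (fun _ w D => BadFor w D fun _ _ _ y Z => Transfers (fronts w) y Z)) ∧
    ∀ (A : Type) [CommRing A] [IsDomain A] [Algebra ℚ A] (y : A) (Z : List ℕ → A), IsFamily y Z →
      (∃ s₀, ∀ s, s₀ ≤ s → Odd s → Z [s] ≠ 0) →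
      (Transfers Set.univ y Z ↔ AllMatrices y Z) ∧ (AllMatrices y Z ↔ OneNumber y Z) := by
  refine ⟨fun k m hk => ⟨?_, ?_⟩, ?_⟩
  · refine metric_of_few hk (fun _ w D H H' s hH hb => ⟨hb.1, badFor_mono w D _ H H' s hH hb.2⟩)
      (fun r w hw D κ => ?_)
    by_cases he : ∀ i, EvenFront (w i)
    · exact (part1 w hw he D κ).mono fun H s hb => hb.2
    · refine ⟨0, fun C => ⟨0, fun N _ => ?_⟩⟩
      have hempty : {s : Fin k → ℕ | (∀ j, N ≤ s j ∧ s j ≤ κ * N) ∧ (∀ i, EvenFront (w i)) ∧
          BadFor w D (fun _ _ _ _ _ => True) (C ^ N) s} = ∅ := by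
        ext s
        simp only [Set.mem_setOf_eq, Set.mem_empty_iff_false, iff_false]
        exact fun hs => he hs.2.1
      rw [hempty, Set.ncard_empty]
      exact Nat.zero_le _
  · exact metric_of_few hk (fun _ w D H H' s => badFor_mono w D _ H H' s) (fun _ w hw D κ => part2 w hw D κ)
  · intro A _ _ _ y Z hZ hs
    obtain ⟨s₀, hne⟩ := hs
    have hback : OneNumber y Z → Transfers Set.univ y Z := fun h => c_to_a y Z hZ s₀ hne (large_of_one y Z h)
    exact ⟨⟨all_of_transfers y Z hZ, fun h => hback (one_of_all y Z h)⟩,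
      ⟨one_of_all y Z, fun h => all_of_transfers y Z hZ (hback h)⟩⟩

end Pool.Agent.Results.MP_807c24_nt.BestApproximations
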