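import Pool.Agent.D0H5.CS.Thin
import Pool.Agent.Results.MP_807c24_nt.BestApproximations

/-!
# MP_807c24_nt: relations between the coefficients of the KZ associator at the values of compositions of arithmetic functions

A pattern in `k` variables is a nonempty list of letters `b + u_1 s_1 + ... + u_k s_k`; at a tuple `s` of natural numbers
it gives an index, and so a word. A family `(y, Z)` is an element `y` of a commutative `ℚ`-algebra and a function `Z` from the
indices to the algebra with the stuffle product and with Euler's formula `Z(2 m) = - B_{2m} y ^ (2 m) / (2 (2 m)!)`, for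
example `μ` and the coefficients of an associator `(μ, Φ)` (by the theorem of Furusho), in particular the universal one. The
tuple `s` is bad for `(y, Z)` (and `D`, `H`) if a polynomial relation of degree at most `D` with integer coefficients at most
`H` between `2 π i` and the multiple zeta values of the patterns at `s` fails for `(y, Z)`; for the universal associator this
means that the polynomial is in the kernel of `φ_KZ` and not in `I`.

Let `F_1, ..., F_k` be arbitrary compositions of functions of the class `LM` (positive multiplicative functions of at most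
polynomial growth with `f p ≤ M p` for the large primes `p` and different values at different large primes), for example the
iterates of Euler's function, or `φ(σ(φ(m)))`, and let `0 ≤ θ`, `k θ < 1`.

Theorem. (1) For all large `N`, for all but `N ^ k / (log N) ^ U` of the `m ∈ [1, N] ^ k`, NO tuple `s` near the tuple of the
values, `|s_i - F_i(m_i)| ≤ F_i(m_i) ^ θ`, in a cone `T ≤ s_i ≤ κ T`, is bad for the degree `D` and the height `C ^ T`, for all
families at once if the fronts of the patterns are even (`2a, ..., 2a`, or empty), and for arbitrary patterns for all families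
for which all the relations between `2 π i` and the multiple zeta values of the (finitely many) constant fronts hold.

(2) Conversely, let `(y, Z)` be a family in a domain, with `Z(s) ≠ 0` for all large odd `s` (for example the universal
associator). Then the following are equivalent: (a) all polynomial relations between `2 π i` and the multiple zeta values hold
for `(y, Z)` (for the universal associator: `φ_KZ` is injective); (b) the conclusion of (1) holds for `(y, Z)`, for all patterns
and all compositions; (c) for ANY fixed number `t`: for all patterns in one variable with exactly one letter which is not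
constant, `s + b`, for all but at most `N / log N` of the `m ≤ N`, the relations of degree one with integer coefficients at most
`2 ^ s` hold for `(y, Z)` for all `s` with `|s - v| ≤ v ^ (1/2)`, where `v` is the `t`-fold iterate `φ(φ(...φ(m)...))`.

The values of compositions form thin sets and are taken with very large multiplicities: this does not follow from the count of
the bad tuples, at most `K N ^ (k - 1)` in `[N, κ N] ^ k`, in the starting file `AlmostAllCoefficients`, which is used. The
starting file `CarmichaelMultiples` is about the multiples of one multiplicative function. The tool for compositions is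
`Pool.Agent.D0H71.CM`.
-/

set_option autoImplicit false

namespace Pool.Agent.Results.MP_807c24_nt.CompositionValues

open Pool.Agent.N733.TG (LM lm_totient lm_sigma)
open Pool.Agent.D0H71.CM (Comp)
open Pool.Agent.D0H5.CS (ThinNear thin_of_count odd_of_thin comp_comp comp_iter)
open AlmostAllCoefficients (mzv mu Letter index AdmissiblePattern fronts EvenFront OneLarge IsFamily Transfers Bad BadFor Few
  part1 part2 c_to_a OneLargeArgument)
open BestApproximations (bad_mono badFor_mono bad_of_linear)

/-- statement (b): for all patterns in `k ≥ 1` variables and all compositions `F_i` of functions with `LM`, the tuples near the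
tuples of the values of the `F_i` are not bad for `(y, Z)`, up to a thin set -/
def AllCompositions {A : Type} [CommRing A] (y : A) (Z : List ℕ → A) : Prop :=
  ∀ (k r : ℕ), 1 ≤ k → ∀ w : Fin r → List (Letter k), (∀ i, AdmissiblePattern (w i)) → ∀ (D κ : ℕ) (C : ℝ)
    (F : Fin k → ℕ → ℕ), (∀ i, Comp (F i)) → ∀ θ : ℝ, 0 ≤ θ → k * θ < 1 → ∀ U : ℕ,
    ThinNear κ C F θ U (fun H s => Bad w D H y Z s)

/-- statement (c): the same for the patterns in one variable with exactly one letter which is not constant, `s + b`, the
`t`-fold iterate of Euler's function, relations of degree one, `κ = 1`, `C = 2`, `θ = 1 / 2` and `U = 1` -/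
def NearIterates (t : ℕ) {A : Type} [CommRing A] (y : A) (Z : List ℕ → A) : Prop :=
  ∀ (r : ℕ) (w : Fin r → List (Letter 1)), (∀ i, AdmissiblePattern (w i) ∧ OneLarge (w i)) →
    ThinNear 1 2 (fun _ => Nat.totient^[t]) (1 / 2) 1 (fun H s => Bad w 1 H y Z s)

lemma all_of_transfers {A : Type} [CommRing A] [Algebra ℚ A] (y : A) (Z : List ℕ → A) (hZ : IsFamily y Z)
    (h : Transfers Set.univ y Z) : AllCompositions y Z := by
  intro k r hk w hw D κ C F hF θ hθ hθk U
  exact thin_of_count hk κ C hF hθ hθk U (fun H H' s => bad_mono w D y Z H H' s)
    (AlmostAllCoefficients.a_to_b y Z hZ h k r w hw D (2 * κ))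

lemma near_of_all {A : Type} [CommRing A] (y : A) (Z : List ℕ → A) (h : AllCompositions y Z) (t : ℕ) :
    NearIterates t y Z := by
  intro r w hw
  exact h 1 r le_rfl w (fun i => (hw i).1) 1 1 2 (fun _ => Nat.totient^[t]) (fun _ => comp_iter lm_totient t) (1 / 2)
    (by norm_num) (by norm_num) 1

lemma large_of_near {A : Type} [CommRing A] (y : A) (Z : List ℕ → A) {t : ℕ} (h : NearIterates t y Z) :
    OneLargeArgument Z := by
  intro r w hw B s₁
  obtain ⟨s, h1, h2, h3⟩ := odd_of_thin (h r w hw) (s₁ + B)
  refine ⟨s, by omega, h2, fun a ha hR => ?_⟩
  by_contra hA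
  refine h3 (bad_of_linear w y Z (fun _ => s) B _ ?_ a ha hR hA)
  have h4 : B ≤ 2 ^ s := by
    have h5 : s < 2 ^ s := Nat.lt_two_pow_self
    omega
  exact_mod_cast h4

/-- **Theorem.** (1) Let `w_1, ..., w_r` be admissible patterns in `k ≥ 1` variables, `D`, `κ` natural numbers, `C` a real
number, `F_1, ..., F_k` compositions of functions with `LM`, `θ ≥ 0`, `k θ < 1`, and `U` a natural number. For all large `N`,
for all but `N ^ k / (log N) ^ U` of the `m ∈ [1, N] ^ k`, no tuple `s` with `|s_i - F_i(m_i)| ≤ F_i(m_i) ^ θ` and
`T ≤ s_i ≤ κ T` is bad, for the degree `D` and the height `C ^ T`, for a family `(y, Z)` for which the relations between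
`2 π i` and the multiple zeta values of the fronts hold; if the fronts are even, for any family. (2) For a family `(y, Z)` in a
domain, with `Z(s) ≠ 0` for all large odd `s`, the following are equivalent: all polynomial relations between `2 π i` and the
multiple zeta values hold for `(y, Z)`; `AllCompositions y Z`; `NearIterates t y Z`, for any fixed `t`. (3) Euler's function and
the sum of the divisors satisfy `LM`; the iterates of a function with `LM` and the compositions of compositions are
compositions. -/
theorem result :
    (∀ (k r : ℕ), 1 ≤ k → ∀ w : Fin r → List (Letter k), (∀ i, AdmissiblePattern (w i)) → ∀ (D κ : ℕ) (C : ℝ)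
      (F : Fin k → ℕ → ℕ), (∀ i, Comp (F i)) → ∀ θ : ℝ, 0 ≤ θ → k * θ < 1 → ∀ U : ℕ,
      ThinNear κ C F θ U (BadFor w D fun _ _ _ y Z => Transfers (fronts w) y Z) ∧
      ((∀ i, EvenFront (w i)) → ThinNear κ C F θ U (BadFor w D fun _ _ _ _ _ => True))) ∧
    (∀ (A : Type) [CommRing A] [IsDomain A] [Algebra ℚ A] (y : A) (Z : List ℕ → A), IsFamily y Z →
      (∃ s₀, ∀ s, s₀ ≤ s → Odd s → Z [s] ≠ 0) →
      (Transfers Set.univ y Z ↔ AllCompositions y Z) ∧ ∀ t : ℕ, (AllCompositions y Z ↔ NearIterates t y Z)) ∧
    (LM Nat.totient ∧ LM (fun m => ∑ d ∈ m.divisors, d)) ∧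
    (∀ f : ℕ → ℕ, LM f → ∀ t : ℕ, Comp (f^[t])) ∧
    (∀ F G : ℕ → ℕ, Comp F → Comp G → Comp (fun m => F (G m))) := by
  refine ⟨fun k r hk w hw D κ C F hF θ hθ hθk U => ⟨?_, fun he => ?_⟩, ?_, ⟨lm_totient, lm_sigma⟩,
    fun f hf t => comp_iter hf t, fun F G hF hG => comp_comp hF hG⟩
  · exact thin_of_count hk κ C hF hθ hθk U (fun H H' s => badFor_mono w D _ H H' s) (part2 w hw D (2 * κ))
  · exact thin_of_count hk κ C hF hθ hθk U (fun H H' s => badFor_mono w D _ H H' s) (part1 w hw he D (2 * κ))
  · intro A _ _ _ y Z hZ hs
    obtain ⟨s₀, hne⟩ := hs
    have hback : ∀ t, NearIterates t y Z → Transfers Set.univ y Z := fun t h =>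
      c_to_a y Z hZ s₀ hne (large_of_near y Z h)
    exact ⟨⟨all_of_transfers y Z hZ, fun h => hback 0 (near_of_all y Z h 0)⟩,
      fun t => ⟨fun h => near_of_all y Z h t, fun h => all_of_transfers y Z hZ (hback t h)⟩⟩

end Pool.Agent.Results.MP_807c24_nt.CompositionValues
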