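import Mathlib
import Pool.Agent.D0H51.DR.MainR

/-!
# MP_807c24_nt: linearly many coefficients of the KZ associator, in every depth

The coefficient of the word `A ^ (s_1 - 1) B ... A ^ (s_d - 1) B` in the KZ associator is up to sign the
multiple zeta value `ζ(s_1, ..., s_d)`. Let the depth `d = r + 1 ≥ 2` and the numbers `B`, `κ` be given.
There are `δ > 0` and `C` such that for all large `N` the following holds. Take `W + 1` indices
`(p + i, t_i)`, `0 ≤ i ≤ W`, of depth `d`, where `W ≤ δ N`, all arguments are in `[N, κ N]`, the first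
arguments are consecutive and the other arguments, in each place, differ by at most `W`; otherwise
`t_0, ..., t_W` are arbitrary. (So this is any set of indices with different first arguments in a small
cube of side `δ N`.) Then no nonzero combination with integer coefficients of absolute value at most `B`
of these multiple zeta values, plus a polynomial in `2 π i` of degree and height at most `B`, vanishes;
its absolute value is larger than `C ^ (-N)`. For the universal associator: a nonzero such polynomial in
`μ` and the coefficients of `Φ` is not in the kernel of `φ_KZ`.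

The starting files consider a bounded number of coefficients, for almost all tuples of arguments; here
the number of coefficients grows linearly with the weight, and there are no exceptional tuples.

Proof. The combination is the sum over the tuples `x_1 > ... > x_d ≥ 1` of `f(x)` times the `S`-unit
`x_1 ^ (-p) ∏ x_j ^ (-q_j)`, where `f(x)` is a rational number of height `exp (o(N))`. At
`x = (l, r, r - 1, ..., 1)` with a prime number `l > B` it is not zero, since the numerator of the
coefficient of the lowest power of `1 / l` is not divisible by `l`. The `S`-unit of this tuple is not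
equivalent to that of another tuple with `x_1 ≤ l`, and the p-adic subspace theorem (starting library)
bounds the sum over the tuples with `x_1 ≤ l` from below; the rest is smaller by a factor
`(l / (l + 1)) ^ N`.
-/

set_option autoImplicit false

namespace Pool.Agent.Results.MP_807c24_nt.LinearlyManyCoefficients

open Finset

/-- `trunc [s_1, ..., s_r] m` is the sum of `∏ n_i ^ (-s_i)` over `m > n_1 > ... > n_r ≥ 1` -/
noncomputable def trunc : List ℕ → ℕ → ℝ
  | [], _ => 1
  | s :: l, m => ∑ j ∈ Finset.Ico 1 m, trunc l j / (j : ℝ) ^ s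

/-- the multiple zeta value `ζ(s_1, ..., s_r)`, `s_1` belongs to the largest variable -/
noncomputable def mzv : List ℕ → ℝ
  | [] => 1
  | s :: l => ∑' m : ℕ, trunc l (m + 1) / ((m + 1 : ℕ) : ℝ) ^ s

/-- `2 π i` -/
noncomputable def mu : ℂ := 2 * Real.pi * Complex.I

theorem trunc_eq (R : ℕ) : ∀ (t : Fin R → ℕ) (m : ℕ),
    trunc (List.ofFn t) m = Pool.Agent.D0H51.DR.trF R t m := by
  induction R with
  | zero => intro t m; rw [List.ofFn_zero, trunc, Pool.Agent.D0H51.DR.trF]
  | succ R ih =>
    intro t m
    rw [List.ofFn_succ, trunc, Pool.Agent.D0H51.DR.trF]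
    exact sum_congr rfl fun j _ => by rw [ih]

theorem mzv_eq (R a : ℕ) (t : Fin R → ℕ) :
    mzv (a :: List.ofFn t) = Pool.Agent.D0H51.DR.mzF R (Fin.cons a t) := by
  rw [mzv, Pool.Agent.D0H51.DR.mzF]
  refine tsum_congr fun m => ?_
  rw [trunc_eq]
  simp only [Fin.cons_zero, Fin.cons_succ]

/-- Let `r ≥ 1` and let `B`, `κ` be natural numbers. There are `δ > 0` and natural numbers `C ≥ 1`, `P`
such that for all `N ≥ P`, all `W ≤ δ N`, all `p ∈ [N, κ N]` and all `r`-tuples `t_0, ..., t_W` of
numbers in `[N, κ N]`, any two of which differ by at most `W` in each place, all integers `c_0, ..., c_W`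
with `|c_i| ≤ B` and all polynomials `G` with integer coefficients of degree and height at most `B`, not
all zero: `|∑_i c_i ζ(p + i, t_i) + G(2 π i)| > C ^ (-N)`. -/
theorem result (r : ℕ) (hr : 1 ≤ r) (B κ : ℕ) : ∃ (δ : ℝ) (C P : ℕ), 0 < δ ∧ 0 < C ∧
    ∀ (N W p : ℕ) (t : ℕ → Fin r → ℕ) (c : ℕ → ℤ) (G : Polynomial ℤ), P ≤ N →
      N ≤ p → p ≤ κ * N → (∀ i ≤ W, ∀ j, N ≤ t i j ∧ t i j ≤ κ * N) → (W : ℝ) ≤ δ * N →
      (∀ i ≤ W, ∀ i' ≤ W, ∀ j, t i j ≤ t i' j + W) → (∀ i ≤ W, |c i| ≤ (B : ℤ)) →
      G.natDegree ≤ B → (∀ n, |G.coeff n| ≤ (B : ℤ)) → (G ≠ 0 ∨ ∃ i ≤ W, c i ≠ 0) →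
      1 / (C : ℝ) ^ N <
        ‖((∑ i ∈ range (W + 1), (c i : ℝ) * mzv ((p + i) :: List.ofFn (t i)) : ℝ) : ℂ) +
          Polynomial.aeval mu G‖ := by
  obtain ⟨δ, C, P, h1, h2, h⟩ := Pool.Agent.D0H51.DR.main r hr B κ
  refine ⟨δ, C, P, h1, h2, ?_⟩
  intro N W p t c G hP hNp hpN ht hW htt hc hG1 hG2 hne
  have h3 := h N W p t c G hP hNp hpN ht hW htt hc hG1 hG2 hne
  have h4 : ∀ i ∈ range (W + 1), (c i : ℝ) * mzv ((p + i) :: List.ofFn (t i)) =
      (c i : ℝ) * Pool.Agent.D0H51.DR.mzF r (Fin.cons (p + i) (t i)) := by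
    intro i _
    rw [mzv_eq]
  rw [sum_congr rfl h4]
  exact h3

end Pool.Agent.Results.MP_807c24_nt.LinearlyManyCoefficients
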