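import Mathlib
import Pool.Agent.D0H51.AP.PolyMu

/-!
# MP_807c24_nt: sums of linearly many polynomials in the coefficients of the KZ associator

The coefficient of the word `A ^ (s_1 - 1) B ... A ^ (s_d - 1) B` in an associator is, up to the sign `(-1) ^ d`, denoted by
`Z(s_1, ..., s_d)`; for the KZ associator it is the multiple zeta value. For each associator `(y, Φ)`, in particular for the
universal one, `Z` has the stuffle product (Furusho).

A word is a nonempty list of letters `(a, v)`, pairs of integers; its index at `i` has the arguments `a + i v`, as in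
`ζ(p + i, q - i)`, `ζ(p + i, t, q + 2 i)`. Let `w_1, ..., w_k` be words of depth at most `d`. For ARBITRARY polynomials
`f_0, ..., f_W`, `g_0, ..., g_W` with integer coefficients, of degree at most `D` and with coefficients at most `B`, an even
number `a`, an odd number `b` and a polynomial `G` of degree and height at most `B` consider the element
`E(y, Z) = y ^ a ∑_{i ≤ W} f_i(Z(w_1(i)), ..., Z(w_k(i))) + y ^ b ∑_{i ≤ W} g_i(Z(w_1(i)), ..., Z(w_k(i))) + G(y)`
of the ring of the problem, a polynomial in `μ` and `k (W + 1)` coefficients of `Φ`.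

Theorem. There are `δ > 0`, `C` and `P` (for given `k`, `d`, `D`, `B`, `κ`, `a`, `b`) such that for all `N ≥ P`, `W ≤ δ N`, and
all words whose arguments are in `[N, κ N]` and change by at most `δ N` for `0 ≤ i ≤ W`: if `E` is in the kernel of `φ_KZ`, or
if only `|φ_KZ(E)| ≤ C ^ (-N)`, then `E(y, Z) = 0` in every commutative ring for every `y` and every family `Z` with the stuffle
product; so `E` is zero for the universal associator (`E` is in the ideal `I`). For example, all relations with coefficients at
most `B` between `2 π i` and linearly many products `ζ(p + i) ζ(q - i)`, `ζ(p + i, q - i)`, `ζ(q - i, p + i)`,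
`0 ≤ i ≤ δ N`, come from the relations of associators, without any exceptional `p`, `q`.

In the hand-in `LinearlyManyCoefficients` on this page the relations are linear in the coefficients of `Φ` of one depth (at
arbitrary indices with different first arguments), there are no relations in `I` of this kind. Here products are allowed, in
all depths at once, and then there are many nontrivial relations in `I`.

Proof. The real and the imaginary part separate `f` and `g`. The sums are exponentially close to integers, and `2 π i` is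
transcendental: so `G` has only the terms `y ^ a` and `y ^ b`. The stuffle product gives a combination of multiple zeta values
of boundedly many progressions of indices, with bounded coefficients. Consider an index (over tuples with entries `≥ 2`) of
minimal weight, up to `o(N)`, with a nonzero coefficient. The S-units of the tuples `x_1 > ... > x_r` of primes for this index
are not equivalent to those of other tuples and indices of at least this weight. For a suitable such tuple the sum of the terms
of the nearby indices does not vanish: each progression is dominated by one of its ends, and for logarithms of primes from a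
separated grid different ends have different sizes. So the p-adic subspace theorem (starting library) gives the lower bound.
-/

set_option autoImplicit false

namespace Pool.Agent.Results.MP_807c24_nt.SumsOfPolynomials

open Finset

/-- `trunc [s_1, ..., s_r] m` is the sum of `∏ n_i ^ (-s_i)` over `m > n_1 > ... > n_r ≥ 1` -/
noncomputable def trunc : List ℕ → ℕ → ℝ
  | [], _ => 1
  | s :: l, m => ∑ j ∈ Finset.Ico 1 m, trunc l j / (j : ℝ) ^ s

/-- the multiple zeta value `ζ(s_1, ..., s_r)`, `s_1` belongs to the largest variable -/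
noncomputable def mzv : List ℕ → ℝ
  | [] => 1
  | s :: l => ∑' m : ℕ, trunc l (m + 1) / ((m + 1 : ℕ) : ℝ) ^ s

/-- `2 π i` -/
noncomputable def mu : ℂ := 2 * Real.pi * Complex.I

/-- admissible indices: `(s_1, ..., s_r)` with `r ≥ 1`, `s_1 ≥ 2` and all `s_i ≥ 1` -/
def AdmissibleIndex : List ℕ → Prop
  | [] => False
  | s :: l => 2 ≤ s ∧ ∀ t ∈ l, 1 ≤ t

/-- the list of the indices in the stuffle (series) product of two indices -/
def stuffles : List ℕ → List ℕ → List (List ℕ)
  | [], v => [v]
  | x :: u, [] => [x :: u]
  | x :: u, y :: v =>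
    (stuffles u (y :: v)).map (x :: ·) ++ (stuffles (x :: u) v).map (y :: ·) ++
      (stuffles u v).map ((x + y) :: ·)
termination_by k l => k.length + l.length

/-- `Z` has the stuffle product: `Z(u) Z(v) = ∑ Z(w)` over the indices `w` of the stuffle product of `u` and `v`, for all
admissible indices `u` and `v` -/
def HasStuffleProduct {A : Type} [CommRing A] (Z : List ℕ → A) : Prop :=
  ∀ u v : List ℕ, AdmissibleIndex u → AdmissibleIndex v → Z u * Z v = ((stuffles u v).map Z).sum

/-- words: the letter `(a, v)` stands for the argument `a + i v` -/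
abbrev Word : Type := List (ℤ × ℤ)

/-- the index with the arguments `a + i v` -/
def index (i : ℕ) (w : Word) : List ℕ := w.map fun y => (y.1 + (i : ℤ) * y.2).toNat

theorem trunc_eq : ∀ l m, trunc l m = Pool.Agent.D0H51.AP.trunc l m := by
  intro l
  induction l with
  | nil => intro m; rw [trunc, Pool.Agent.D0H51.AP.trunc]
  | cons s l ih =>
    intro m
    rw [trunc, Pool.Agent.D0H51.AP.trunc]
    exact Finset.sum_congr rfl fun j _ => by rw [ih]

theorem mzv_eq : ∀ l, mzv l = Pool.Agent.D0H51.AP.mzv l := by
  intro l
  cases l with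
  | nil => rw [mzv, Pool.Agent.D0H51.AP.mzv]
  | cons s l =>
    rw [mzv, Pool.Agent.D0H51.AP.mzv]
    exact tsum_congr fun k => by rw [trunc_eq]

theorem stuffles_eq : ∀ u v, stuffles u v = Pool.Agent.D0H51.AP.stg u v := by
  intro u v
  induction u, v using stuffles.induct with
  | case1 v => rw [stuffles, Pool.Agent.D0H51.AP.stg]
  | case2 x u => rw [stuffles, Pool.Agent.D0H51.AP.stg]
  | case3 x u y v ih1 ih2 ih3 => rw [stuffles, Pool.Agent.D0H51.AP.stg, ih1, ih2, ih3]

theorem adm_of {u : List ℕ} (h : Pool.Agent.D0H51.AP.Ge2 u) : AdmissibleIndex u := by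
  cases u with
  | nil => exact absurd rfl h.1
  | cons x u =>
    exact ⟨h.2 x List.mem_cons_self, fun y hy => by
      have := h.2 y (List.mem_cons_of_mem _ hy)
      omega⟩

/-- Let `k`, `d`, `D`, `B`, `κ` be natural numbers, let `a` be even and `b` odd. There are `δ > 0` and natural numbers `C ≥ 1`,
`P` such that for all `N ≥ P`, all `W ≤ δ N`, all words `w_1, ..., w_k` of depth between `1` and `d` with arguments
`a' + i v ∈ [N, κ N]` for `0 ≤ i ≤ W` and `W |v| ≤ δ N`, all integer polynomials `f_0, ..., f_W`, `g_0, ..., g_W` in `k`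
variables of degree at most `D` with coefficients of absolute value at most `B`, and all integer polynomials `G` in one
variable of degree and height at most `B`: if the absolute value of
`(2 π i) ^ a ∑_i f_i(ζ(w_1(i)), ..., ζ(w_k(i))) + (2 π i) ^ b ∑_i g_i(ζ(w_1(i)), ..., ζ(w_k(i))) + G(2 π i)` is at most
`C ^ (-N)` then `y ^ a ∑_i f_i(Z(w_1(i)), ..., Z(w_k(i))) + y ^ b ∑_i g_i(Z(w_1(i)), ..., Z(w_k(i))) + G(y) = 0` for all
commutative rings `A`, `y ∈ A` and all functions `Z` from the indices to `A` with the stuffle product. -/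
theorem result (k d D B κ a b : ℕ) (ha : Even a) (hb : Odd b) : ∃ (δ : ℝ) (C P : ℕ), 0 < δ ∧ 0 < C ∧
    ∀ (N W : ℕ) (w : Fin k → Word) (f g : ℕ → MvPolynomial (Fin k) ℤ) (G : Polynomial ℤ), P ≤ N →
      (W : ℝ) ≤ δ * N → (∀ l, w l ≠ [] ∧ (w l).length ≤ d) →
      (∀ l, ∀ y ∈ w l, (∀ i ≤ W, (N : ℤ) ≤ y.1 + i * y.2 ∧ y.1 + i * y.2 ≤ κ * N) ∧
        (W : ℝ) * |(y.2 : ℝ)| ≤ δ * N) →
      (∀ i ≤ W, (f i).totalDegree ≤ D ∧ ∀ e, |(f i).coeff e| ≤ (B : ℤ)) →
      (∀ i ≤ W, (g i).totalDegree ≤ D ∧ ∀ e, |(g i).coeff e| ≤ (B : ℤ)) →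
      G.natDegree ≤ B → (∀ j, |G.coeff j| ≤ (B : ℤ)) →
      ‖mu ^ a * ((∑ i ∈ range (W + 1), MvPolynomial.aeval (fun l => mzv (index i (w l))) (f i) : ℝ) : ℂ) +
        mu ^ b * ((∑ i ∈ range (W + 1), MvPolynomial.aeval (fun l => mzv (index i (w l))) (g i) : ℝ) : ℂ) +
        Polynomial.aeval mu G‖ ≤ 1 / (C : ℝ) ^ N →
      ∀ (A : Type) [CommRing A] (y : A) (Z : List ℕ → A), HasStuffleProduct Z →
        y ^ a * ∑ i ∈ range (W + 1), MvPolynomial.aeval (fun l => Z (index i (w l))) (f i) +
          y ^ b * ∑ i ∈ range (W + 1), MvPolynomial.aeval (fun l => Z (index i (w l))) (g i) +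
          Polynomial.aeval y G = 0 := by
  obtain ⟨δ, C, P, hδ, hC, h⟩ := Pool.Agent.D0H51.AP.polymu k d D B κ a b ha hb
  refine ⟨δ, C, P, hδ, hC, fun N W w f g G hPN hW hw hent hf hg hG1 hG2 hsmall A _ y Z hZ => ?_⟩
  have hmz : mzv = Pool.Agent.D0H51.AP.mzv := funext mzv_eq
  -- the words of functions
  set w' : Fin k → List (ℕ → ℕ) := fun l => (w l).map fun (y : ℤ × ℤ) (i : ℕ) => (y.1 + (i : ℤ) * y.2).toNat with hw'
  have hidx : ∀ (i : ℕ) l, ((w' l).map fun x => x i) = index i (w l) := by
    intro i l
    rw [hw', index, List.map_map]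
    rfl
  have hmem : ∀ l, ∀ x ∈ w' l, ∃ y ∈ w l, ∀ i, x i = (y.1 + i * y.2).toNat := by
    intro l x hx
    rw [hw', List.mem_map] at hx
    obtain ⟨y, hy, rfl⟩ := hx
    exact ⟨y, hy, fun i => rfl⟩
  have hval : ∀ l, ∀ y ∈ w l, ∀ i ≤ W, (((y.1 + i * y.2).toNat : ℕ) : ℤ) = y.1 + i * y.2 := by
    intro l y hy i hi
    rw [Int.toNat_of_nonneg]
    have h1 := ((hent l y hy).1 i hi).1
    have h2 : (0 : ℤ) ≤ N := Int.natCast_nonneg _
    omega
  have key := h N W w' f g G hPN hW (fun l => by
      rw [hw', Ne, List.map_eq_nil_iff]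
      exact (hw l).1) (fun l => by
      rw [hw', List.length_map]
      exact (hw l).2) (fun l x hx i hi => by
      obtain ⟨y, hy, hyx⟩ := hmem l x hx
      have h1 := (hent l y hy).1 i hi
      have h2 := hval l y hy i hi
      rw [hyx]
      constructor
      · have h3 : (N : ℤ) ≤ (((y.1 + i * y.2).toNat : ℕ) : ℤ) := by rw [h2]; exact h1.1
        exact_mod_cast h3
      · have h3 : (((y.1 + i * y.2).toNat : ℕ) : ℤ) ≤ κ * N := by rw [h2]; exact h1.2
        exact_mod_cast h3) (fun l x hx => by
      obtain ⟨y, hy, hyx⟩ := hmem l x hx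
      refine ⟨y.2, fun i hi => ?_⟩
      rw [hyx, hyx, hval l y hy i hi]
      have := hval l y hy 0 (Nat.zero_le _)
      rw [this]
      push_cast
      ring) (fun l x hx i hi j hj => by
      obtain ⟨y, hy, hyx⟩ := hmem l x hx
      have h1 := (hent l y hy).2
      have h2 : (x i : ℝ) = y.1 + i * y.2 := by
        rw [hyx]
        exact_mod_cast hval l y hy i hi
      have h3 : (x j : ℝ) = y.1 + j * y.2 := by
        rw [hyx]
        exact_mod_cast hval l y hy j hj
      rw [h2, h3]
      have h4 : ((i : ℝ) - j) * y.2 ≤ W * |(y.2 : ℝ)| := by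
        refine (le_abs_self _).trans ?_
        rw [abs_mul]
        apply mul_le_mul_of_nonneg_right _ (abs_nonneg _)
        rw [abs_le]
        have e1 : (i : ℝ) ≤ W := by exact_mod_cast hi
        have e2 : (j : ℝ) ≤ W := by exact_mod_cast hj
        have e3 : (0 : ℝ) ≤ i := Nat.cast_nonneg _
        have e4 : (0 : ℝ) ≤ j := Nat.cast_nonneg _
        constructor <;> linarith
      linarith) hf hg hG1 hG2
    (by
      simp only [hidx]
      rw [← hmz]
      exact hsmall) A y Z (fun u v hu hv => by
        rw [hZ u v (adm_of hu) (adm_of hv), stuffles_eq])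
  simp only [hidx] at key
  exact key

end Pool.Agent.Results.MP_807c24_nt.SumsOfPolynomials
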